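import Pool.Agent.N39.RW.UniE

set_option autoImplicit false

/-!
# Pairs `n, n + d` of a prime and a product of two primes in all windows around a positive proportion of the integers,
# uniformly for all even differences `d ≤ K₀ X`

For every even `d ≤ K₀ X` a positive proportion of the integers `n` in `(X, 2 X]` is regular: ALL windows `(u, v]`
around `n` with `K (log X) ^ 2 / σ(d) ≤ v - u ≤ n` contain the right order of magnitude
`σ(d) (v - u) / (log X) ^ 2` of the `m` for which one of `m`, `m + d` is prime and the other one a product of at most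
two primes. All constants except the lower bound for `X` are absolute. `σ(d)` is the variable part of the singular series `𝔖(d) = 2 C₂ σ(d)`.
-/

namespace Pool.Agent.Results.MP_678834_nt.ChenPairsInShortWindows

open Filter

/-- the variable part of the singular series: the product of `(p - 1) / (p - 2)` over the odd primes `p ∣ d` -/
noncomputable def sigma (d : ℕ) : ℝ := ∏ p ∈ d.primeFactors.filter (fun p => 2 < p), (((p : ℝ) - 1) / (p - 2))

/-- `s = 0`: `m` is prime and `m + d` is a product of at most two primes; `s = 1`: `m + d` is prime and `m` is a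
product of at most two primes; in both cases all prime factors of `m` and `m + d` are larger than `z`. -/
def Good (s : Fin 2) (z : ℝ) (d m : ℕ) : Prop :=
  (if s = 0 then m.Prime ∧ (m + d).primeFactorsList.length ≤ 2
    else (m + d).Prime ∧ m.primeFactorsList.length ≤ 2) ∧
  ∀ q : ℕ, q.Prime → q ∣ m ∨ q ∣ m + d → z < (q : ℝ)

/-- all prime factors of `m` and `m + d` are larger than `z` -/
def Sieved (z : ℝ) (d m : ℕ) : Prop := ∀ q : ℕ, q.Prime → q ∣ m ∨ q ∣ m + d → z < (q : ℝ)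

/-- `n` is regular: in ALL windows `(u, v]` with `u ≤ n ≤ v` and `K (log X) ^ 2 / σ(d) ≤ v - u ≤ n` there are at
least `c₁ σ(d) (v - u) / (log X) ^ 2` good `m`, and at most `c₂ σ(d) (v - u) / (log X) ^ 2` sieved `m`, at the level
`X ^ (1 / r)`. -/
def Regular (s : Fin 2) (r : ℕ) (c₁ c₂ K : ℝ) (X d n : ℕ) : Prop :=
  ∀ u v : ℕ, u ≤ n → n ≤ v → K * Real.log X ^ 2 / sigma d ≤ (v : ℝ) - u → (v : ℝ) - u ≤ n →
    c₁ * sigma d * ((v : ℝ) - u) / Real.log X ^ 2 ≤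
      ({m : ℕ | u < m ∧ m ≤ v ∧ Good s ((X : ℝ) ^ (1 / (r : ℝ))) d m}.ncard : ℝ) ∧
    ({m : ℕ | u < m ∧ m ≤ v ∧ Sieved ((X : ℝ) ^ (1 / (r : ℝ))) d m}.ncard : ℝ) ≤
      c₂ * sigma d * ((v : ℝ) - u) / Real.log X ^ 2

theorem gr_iff (d : ℕ) (z : ℝ) (m : ℕ) :
    Pool.Agent.N39.RW.GR (Pool.Agent.N39.RW.fa 1) (Pool.Agent.N39.RW.fb d) z m ↔ Sieved z d m := by
  unfold Pool.Agent.N39.RW.GR Sieved
  rw [Fin.forall_fin_two]
  simp only [Pool.Agent.N39.RW.fa, Pool.Agent.N39.RW.fb, Matrix.cons_val_zero, Matrix.cons_val_one, one_mul,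
    add_zero, Int.natCast_dvd_natCast]
  have e : ((m : ℤ) + (d : ℤ)) = ((m + d : ℕ) : ℤ) := by push_cast; ring
  rw [e]
  simp only [Int.natCast_dvd_natCast]
  constructor
  · rintro ⟨h1, h2⟩ q hq hd
    rcases hd with hd | hd
    · exact h1 q hq hd
    · exact h2 q hq hd
  · intro h
    exact ⟨fun q hq hd => h q hq (Or.inl hd), fun q hq hd => h q hq (Or.inr hd)⟩

theorem gc (s : Fin 2) (d r : ℕ) (z : ℝ) (m : ℕ)
    (h : Pool.Agent.N39.RW.GC (Pool.Agent.N39.RW.fa 1) (Pool.Agent.N39.RW.fb d) s (1 - s) r z m) : Good s z d m := by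
  obtain ⟨h1, h2, h3⟩ := h
  have h4 : Pool.Agent.N39.RW.GR (Pool.Agent.N39.RW.fa 1) (Pool.Agent.N39.RW.fb d) z m := fun l => (h3 l).2
  refine ⟨?_, (gr_iff d z m).1 h4⟩
  have e : ((m : ℤ) + (d : ℤ)) = ((m + d : ℕ) : ℤ) := by push_cast; ring
  revert h1 h2
  fin_cases s
  · intro h1 h2
    simp only [Pool.Agent.N39.RW.fa, Pool.Agent.N39.RW.fb, Fin.zero_eta, Matrix.cons_val_zero,
      Matrix.cons_val_one, one_mul, add_zero, Int.natAbs_natCast, sub_zero] at h1 h2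
    rw [e, Int.natAbs_natCast] at h2
    exact ⟨h1, h2⟩
  · intro h1 h2
    simp only [Pool.Agent.N39.RW.fa, Pool.Agent.N39.RW.fb, Fin.mk_one, Matrix.cons_val_zero,
      Matrix.cons_val_one, one_mul, add_zero, Int.natAbs_natCast, sub_self] at h1 h2
    rw [e, Int.natAbs_natCast] at h1
    exact ⟨h1, h2⟩

theorem result : ∃ (r : ℕ) (c₁ c₂ K μ : ℝ), 1 ≤ r ∧ 0 < c₁ ∧ 0 < c₂ ∧ 0 < K ∧ 0 < μ ∧
    ∀ K₀ : ℕ, ∀ᶠ X : ℕ in atTop, ∀ (s : Fin 2) (d : ℕ), 1 ≤ d → 2 ∣ d → d ≤ K₀ * X →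
      μ * X ≤ ({n : ℕ | X < n ∧ n ≤ 2 * X ∧ Regular s r c₁ c₂ K X d n}.ncard : ℝ) := by
  classical
  obtain ⟨r, hr, c₁, c₂, K, μ, hc₁, hc₂, hK, hμ, H⟩ := Pool.Agent.N39.RW.uniP
  refine ⟨r, c₁, c₂, K, μ, hr, hc₁, hc₂, hK, hμ, fun K₀ => ?_⟩
  filter_upwards [H K₀] with X hX
  intro s d hd1 hd2 hdX
  refine (hX 1 d s (1 - s) (Or.inl rfl) hd1 hd2 hdX (by fin_cases s <;> decide)).trans ?_
  rw [← Set.ncard_coe_finset]
  refine Nat.cast_le.2 (Set.ncard_le_ncard ?_ ((Set.finite_Iic (2 * X)).subset fun n hn => hn.2.1))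
  intro n hn
  rw [Finset.mem_coe, Finset.mem_filter, Finset.mem_Ioc] at hn
  obtain ⟨⟨hn1, hn2⟩, hn3⟩ := hn
  refine ⟨hn1, hn2, fun u v hu hv h1 h2 => ?_⟩
  obtain ⟨h3, h4⟩ := hn3 u v hu hv h1 h2
  rw [Pool.Agent.N39.RW.cardIoc'] at h3 h4
  constructor
  · refine h3.trans (Nat.cast_le.2 (Set.ncard_le_ncard ?_ ((Set.finite_Iic v).subset fun n hn => hn.2.1)))
    rintro m ⟨h5, h6, h7⟩
    exact ⟨h5, h6, gc s d r _ m h7⟩
  · simp only [gr_iff] at h4
    exact h4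

end Pool.Agent.Results.MP_678834_nt.ChenPairsInShortWindows
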