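import Mathlib
import Pool.Agent.N679.RG.All6
import Pool.Agent.N679.RG.FinA
import Pool.Agent.N679.RG.PHI

/-!
# Prime pairs with the right order of magnitude, inside clusters of primes, for 5 / 9 of the even differences of every
window of length `λ log x`, or almost all multiples of a bounded number

For every `k ≥ 0` and `ε > 0` there are `Q` and `c, δ > 0` such that for every `λ > 0` there is a `κ > 0`: for all large
`x` and all `T ≥ λ log x`, at least one of the following two statements holds.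

* In EVERY interval `(u, u + T]` with `2 T ≤ u ≤ x / 100` at least `(5 / 9 - ε) T / 2` of the even `d` (there are about
  `T / 2`) are such that for at least `δ T ^ (2 k)` pairs of vectors `h, h'` of `k` different nonzero integers of `[-T, T]`
  there are at least `κ (d / φ(d)) x / (log x) ^ (2 k + 2)` primes `p ≤ x` for which `p + d`, all `p + h i` and all
  `p + d + h' i` are prime.
* For some `q ≤ Q` and some `X` with `c T ≤ X ≤ T` all but at most `ε X / q` of the multiples `d ≤ X` of `q` are such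
  that for at least `δ T ^ (2 k)` vectors `g` of `2 k` different integers of `[-T, T]`, different from `0` and `d`, there
  are at least `κ x / (log x) ^ (2 k + 2)` primes `p ≤ 2 x` for which `p + d` and all `p + g i` are prime.
-/

set_option autoImplicit false

namespace Pool.Agent.Results.MP_678834_nt.ClusteredPairs

open Finset Filter

/-- the vectors of `k` different nonzero integers in `[-T, T]` -/
noncomputable def vectors (k T : ℕ) : Finset (Fin k → ℤ) :=
  (Fintype.piFinset (fun _ : Fin k => Icc (-(T : ℤ)) T)).filter (fun h => Function.Injective h ∧ ∀ i, h i ≠ 0)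

/-- the number of the primes `p ≤ x` such that `p + d`, all `p + h i` and all `p + d + h' i` are prime
(`k = 0`: the number of the primes `p ≤ x` with `p + d` prime) -/
def twoClusters {k : ℕ} (x d : ℕ) (h h' : Fin k → ℤ) : ℕ :=
  ((Icc 1 x).filter (fun p : ℕ => p.Prime ∧ (p + d).Prime ∧ (∀ i, ((p : ℤ) + h i).toNat.Prime) ∧
    ∀ i, ((p : ℤ) + d + h' i).toNat.Prime)).card

/-- the number of the primes `p ≤ x` such that `p + d` and all `p + g i` are prime -/
def oneCluster {k : ℕ} (x d : ℕ) (g : Fin k → ℤ) : ℕ :=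
  ((Icc 1 x).filter (fun p : ℕ => p.Prime ∧ (p + d).Prime ∧ ∀ i, ((p : ℤ) + g i).toNat.Prime)).card

open Classical in
/-- the right number of pairs of primes `p`, `p + d` with clusters around both -/
def PairDistance (k : ℕ) (δ κ : ℝ) (T x d : ℕ) : Prop :=
  δ * (T : ℝ) ^ (2 * k) ≤ (((vectors k T ×ˢ vectors k T).filter (fun v =>
    κ * ((d : ℝ) / Nat.totient d * (x / (Real.log x) ^ (2 * k + 2))) ≤ (twoClusters x d v.1 v.2 : ℝ))).card : ℝ)

open Classical in
/-- the right number of pairs of primes `p`, `p + d` inside one cluster -/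
def SmallDistance (k : ℕ) (δ κ : ℝ) (T x d : ℕ) : Prop :=
  δ * (T : ℝ) ^ (2 * k) ≤ (((vectors (2 * k) T).filter (fun g => (∀ i, g i ≠ (d : ℤ)) ∧
    κ * (x / (Real.log x) ^ (2 * k + 2)) ≤ (oneCluster (2 * x) d g : ℝ))).card : ℝ)

open Classical in
theorem result : ∀ (k : ℕ) (ε : ℝ), 0 < ε → ∃ (Q : ℕ) (c δ : ℝ), 0 < c ∧ 0 < δ ∧
    ∀ lam : ℝ, 0 < lam → ∃ κ : ℝ, 0 < κ ∧ ∀ᶠ x : ℕ in atTop, ∀ T : ℕ, lam * Real.log x ≤ T →
      (∀ u : ℕ, 2 * T ≤ u → 100 * u ≤ x →
        (5 / 9 - ε) * (T / 2) ≤ (((Ioc u (u + T)).filter (fun d => Even d ∧ PairDistance k δ κ T x d)).card : ℝ)) ∨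
      ∃ q X : ℕ, 1 ≤ q ∧ q ≤ Q ∧ c * T ≤ (X : ℝ) ∧ X ≤ T ∧
        (((Icc 1 X).filter (fun d => q ∣ d ∧ ¬ SmallDistance k δ κ T x d)).card : ℝ) ≤ ε * (X / q) :=
  Pool.Agent.N679.RG.conclD Pool.Agent.N679.RG.finw Pool.Agent.N679.RG.phi_window

end Pool.Agent.Results.MP_678834_nt.ClusteredPairs
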