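import Pool.Agent.N646.TT.Fin

set_option autoImplicit false

/-!
# One third of the even differences reach the right order of magnitude, at every scale

For all `b ≥ 1` and `ε, λ > 0` there is `κ > 0` such that for all large `x` and EVERY `H` between
`λ log x` and `x / (100 b)`: at least `(1/3 - ε) H` of the integers `k ≤ H` satisfy
`π₂(x, 2 b k) ≥ κ 𝔖(2 b k) x / (log x)²`. With `b = 1` and `H = ⌊(log x)² / 2⌋` these are one third of the
even `d ≤ (log x)²` of the question.

Proof: a set of more than two thirds of `{1, …, H}` contains all differences of a positive proportion of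
the quadruples, which lie in two classes modulo 3 (`Pool.Agent.TH899.UG.TD.quad`, starting files); by
Jensen's inequality, used once for each of the four coordinates, a positive proportion of ALL
configurations of four groups of `K` numbers consists of such quadruples only (`Pool.Agent.N646.TT.boxes`);
and for all but a small proportion of the configurations two of the forms `n + 2 b h` of different groups
are simultaneously prime for at least `κ x / (log x)²` of the `n` (`Pool.Agent.N646.RG.sHITM2`).
-/

namespace Pool.Agent.Results.MP_678834_nt.OneThirdRightOrder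

open Finset Filter

/-- The twin prime constant `C₂`. -/
noncomputable def C2 : ℝ := ∏' p : {p : ℕ // p.Prime ∧ 2 < p}, (1 - 1 / (((p.1 : ℕ) : ℝ) - 1) ^ 2)

/-- `𝔖(d) = 2 C₂ ∏_{p ∣ d, p ≥ 3} (p - 1) / (p - 2)`, used for even `d`. -/
noncomputable def S (d : ℕ) : ℝ :=
  2 * C2 * ∏ p ∈ d.primeFactors.filter (fun p : ℕ => 2 < p), (((p : ℝ) - 1) / ((p : ℝ) - 2))

/-- `π₂(x, d)`, the number of primes `p ≤ x` with `p - d` prime. -/
noncomputable def pi2 (x : ℝ) (d : ℕ) : ℕ :=
  ((Icc 1 ⌊x⌋₊).filter (fun p : ℕ => p.Prime ∧ (p - d).Prime)).card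

open Classical in
theorem result (b : ℕ) (hb : 1 ≤ b) (ε lam : ℝ) (hε : 0 < ε) (hlam : 0 < lam) : ∃ κ : ℝ, 0 < κ ∧
    ∃ X : ℝ, ∀ x : ℝ, X ≤ x → ∀ H : ℕ, lam * Real.log x ≤ H → 100 * b * (H : ℝ) ≤ x →
    (1 / 3 - ε) * (H : ℝ) ≤ (((Icc 1 H).filter (fun k : ℕ =>
      κ * (S (2 * b * k) * x / Real.log x ^ 2) ≤ (pi2 x (2 * b * k) : ℝ))).card : ℝ) :=
  Pool.Agent.N646.TT.fin (2 * C2) b hb ε lam hε hlam

end Pool.Agent.Results.MP_678834_nt.OneThirdRightOrder
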